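import Pool.Agent.H471.QP.Fin

set_option autoImplicit false

/-!
# MP_91b7ff_nt: even moments of all orders along arbitrary sequences of generic polynomial heights

For every `j < k` let `x_{0,j} < x_{1,j} < ⋯` be ANY real sequence with gaps at least one, `x_{0,j} ≥ 1`, of at
most polynomial growth, let `1 ≤ e_j < d_j` be integers, let `0 ≤ y_{n,j} ≪ x_{n,j} ^ {d_j}` be ARBITRARY real
numbers and `w_n` ARBITRARY complex weights, `|w_n| ≤ 1`. For almost all real `a_j > 0`, `b_j`, with

`u_{n,j} = y_{n,j} + a_j x_{n,j} ^ {d_j} + b_j x_{n,j} ^ {e_j}`,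

`∑_{n < N} w_n ∏_j |ζ(1/2 + i u_{n,j})| ² = ∑_{n < N} w_n ∏_j (log(u_{n,j} / 2π) + 2γ) + O(N ^ (1/2 + ε))`.

So the values of `|ζ| ²` at `k` such points behave, in the mean over arbitrary sparse sequences and against
arbitrary weights, as independent random variables, for every `k`, with square root cancellation.

Proof. The product telescopes, one factor is replaced by its mean. The difference is a sum over reduced
fractions `h / m ≠ 1` (smooth approximate functional equation); the correlation of the terms `n ≠ m` over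
`(a_j, b_j)` is `≪ |n - m|⁻¹` up to `n ^ ε`: the frequencies `A λ - B μ`, `A' λ - B' μ` (`λ, μ` logarithms of
reduced fractions, `A = x_n ^ d`, `A' = x_n ^ e`, `B = x_m ^ d`, `B' = x_m ^ e`) can not both be small, by
the gap `x_m - x_n`, for `λ` or `μ` not very small, the spacing of the fractions does the rest. The
factors which are not replaced are controlled by the fourth moment of zeta (over the parameters). The
theorem of Gál and Koksma gives the result for almost all parameters. The approximate functional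
equation and the fourth moment are taken from the library of the team.
-/

namespace Pool.Agent.Results.MP_91b7ff_nt.GenericPolynomialHeights

open Complex MeasureTheory

/-- the heights `u_{n,j} = y_{n,j} + a_j x_{n,j} ^ {d_j} + b_j x_{n,j} ^ {e_j}`, `θ_j = (a_j, b_j)` -/
def height {k : ℕ} (d e : Fin k → ℕ) (x y : ℕ → Fin k → ℝ) (θ : Fin k → ℝ × ℝ) (n : ℕ) (j : Fin k) : ℝ :=
  y n j + (θ j).1 * x n j ^ d j + (θ j).2 * x n j ^ e j

/-- **all even moments, arbitrary sequences, generic polynomial heights, square root error term** -/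
theorem result (k : ℕ) (d e : Fin k → ℕ) (he : ∀ j, 1 ≤ e j ∧ e j < d j)
    (x : ℕ → Fin k → ℝ) (hx0 : ∀ j, 1 ≤ x 0 j) (hx : ∀ n j, x n j + 1 ≤ x (n + 1) j)
    (B : ℝ) (hB : ∀ (n : ℕ) (j : Fin k), x n j ≤ ((n : ℝ) + 2) ^ B)
    (y : ℕ → Fin k → ℝ) (Y : ℝ) (hy : ∀ n j, 0 ≤ y n j ∧ y n j ≤ Y * x n j ^ d j)
    (w : ℕ → ℂ) (hw : ∀ n, ‖w n‖ ≤ 1) :
    ∀ᵐ θ : Fin k → ℝ × ℝ, (∀ j, 0 < (θ j).1) → ∀ ε : ℝ, 0 < ε → ∃ K : ℝ, ∀ N : ℕ,
      ‖∑ n ∈ Finset.range N, w n *
          (((∏ j, ‖riemannZeta (1 / 2 + I * height d e x y θ n j)‖ ^ 2 -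
            ∏ j, (Real.log (height d e x y θ n j / (2 * Real.pi)) + 2 * Real.eulerMascheroniConstant) : ℝ)) : ℂ)‖ ≤
        K * (N : ℝ) ^ (1 / 2 + ε) := by
  have h := Pool.Agent.H471.QP.all d e (fun j => (he j).1) (fun j => (he j).2) x hx0 hx B hB y |Y| (abs_nonneg _) (by
    intro n j
    refine ⟨(hy n j).1, (hy n j).2.trans ?_⟩
    have h1 : 0 ≤ x n j := by
      have := Pool.Agent.H471.QP.x_ge hx0 hx n j
      have h0 : (0 : ℝ) ≤ n := Nat.cast_nonneg n
      linarith
    have h2 : 0 ≤ x n j ^ d j := pow_nonneg h1 _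
    exact mul_le_mul_of_nonneg_right (le_abs_self Y) h2) w hw
  filter_upwards [h] with θ hθ hj ε hε
  obtain ⟨K, hK⟩ := hθ hj ε hε
  refine ⟨K, fun N => (le_of_eq ?_).trans (hK N)⟩
  congr 1
  refine Finset.sum_congr rfl fun n _ => ?_
  unfold Pool.Agent.H471.QP.SS Pool.Agent.Y969.GP.ff Pool.Agent.H471.QP.LL Pool.Agent.H471.QP.uu height
  have e1 : ∀ j, y n j + (θ j).2 * x n j ^ e j + (θ j).1 * x n j ^ d j =
      y n j + (θ j).1 * x n j ^ d j + (θ j).2 * x n j ^ e j := fun j => by ring
  simp only [e1]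
  push_cast
  rfl

end Pool.Agent.Results.MP_91b7ff_nt.GenericPolynomialHeights
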