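import Pool.Agent.H469.F4.R3

set_option autoImplicit false

/-!
# MP_91b7ff_nt. Moments and large deviations of maxima of zeta over intervals of all lengths

Write `L = log T` and let `M_H(t)` be the maximum of `|ζ(1/2 + it + ih)|` over `0 ≤ h ≤ H`. Unconditionally:

* for `2 < β ≤ 4`, in particular for the third and the fourth power, and for every `ε > 0`, the mean of `M_H(t)^β` over
  `T ≤ t ≤ 2T` has the exact order `(1 + H L) L^(β²/4)`, uniformly for `0 ≤ H ≤ L^(β²/4 - 1 - ε)`; the upper bound holds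
  for all `0 < β ≤ 4` and `0 ≤ H ≤ T/16`;
* for `0 < β ≤ 2` and `1/L ≤ H ≤ 1` the mean of `M_H(t)^β` is `≤ C (H L)^β H^(-β²/4)`;
* for all `0 < β ≤ 4` and `-1 ≤ θ < 3` the mean of `M_H(t)^β`, `H = L^θ`, is `L^(exponent β θ + o(1))`, where the
  exponent has different shapes in the four phases: for `θ < 0` it is `(1+θ)β - θβ²/4` if `β ≤ 2` and `1+θ+β²/4` if
  `β > 2`; for `θ ≥ 0` it is `β√(1+θ)` if `β ≤ 2√(1+θ)` and `1+θ+β²/4` otherwise;
* for all `v < 2` and `-1 ≤ θ < 3` the proportion of `T ≤ t ≤ 2T` with `M_H(t) > L^v`, `H = L^θ`, is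
  `L^(-rate v θ + o(1))`, where for `θ < 0` the rate is `0` if `v ≤ 1+θ`, `(v-1-θ)²/(-θ)` if `1+θ < v ≤ 1` and
  `v²-1-θ` if `v > 1`; for `θ ≥ 0` it is `0` if `v ≤ √(1+θ)` and `v²-1-θ` otherwise.
-/

open Filter Topology MeasureTheory

namespace Pool.Agent.Results.MP_91b7ff_nt.MaximaPhaseDiagram

/-- `max_(0 ≤ h ≤ H) |ζ(1/2 + it + ih)|`. -/
noncomputable def localMax (H t : ℝ) : ℝ :=
  ⨆ h : Set.Icc (0 : ℝ) H, ‖riemannZeta (1 / 2 + Complex.I * t + Complex.I * ((h : ℝ) : ℂ))‖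

/-- `(1/T) ∫_T^(2T) max_(0 ≤ h ≤ H) |ζ(1/2 + it + ih)|^β dt`. -/
noncomputable def maxMoment (β H T : ℝ) : ℝ := (1 / T) * ∫ t in T..(2 * T), localMax H t ^ β

/-- The proportion of `T ≤ t ≤ 2T` with `max_(0 ≤ h ≤ H) |ζ(1/2 + it + ih)| > V`. -/
noncomputable def proportion (V H T : ℝ) : ℝ :=
  (1 / T) * (volume {t : ℝ | t ∈ Set.Icc T (2 * T) ∧ V < localMax H t}).toReal

/-- The exponent of the `β`-th moment of the maximum over intervals of length `(log T)^θ`. -/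
noncomputable def exponent (β θ : ℝ) : ℝ :=
  if θ < 0 then (if β ≤ 2 then (1 + θ) * β - θ * (β ^ 2 / 4) else 1 + θ + β ^ 2 / 4)
  else (if β ≤ 2 * Real.sqrt (1 + θ) then β * Real.sqrt (1 + θ) else 1 + θ + β ^ 2 / 4)

/-- The rate of decay of the proportion of intervals of length `(log T)^θ` with maximum above `(log T)^v`. -/
noncomputable def rate (v θ : ℝ) : ℝ :=
  if θ < 0 then (if v ≤ 1 + θ then 0 else if v ≤ 1 then (v - 1 - θ) ^ 2 / (-θ) else v ^ 2 - 1 - θ)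
  else (if v ≤ Real.sqrt (1 + θ) then 0 else v ^ 2 - 1 - θ)

lemma localMax_eq (H t : ℝ) : localMax H t = Pool.Agent.H469.F4.MH H 0 t := by
  unfold localMax Pool.Agent.H469.F4.MH
  rw [sSup_image', zero_add]
  congr 1
  funext h
  show ‖riemannZeta (1 / 2 + Complex.I * t + Complex.I * ((h : ℝ) : ℂ))‖ = ‖riemannZeta (1 / 2 + ((t + (h : ℝ) : ℝ) : ℂ) * Complex.I)‖
  congr 2
  push_cast
  ring

lemma maxMoment_eq (β H T : ℝ) : maxMoment β H T = (1 / T) * ∫ t in T..(2 * T), Pool.Agent.H469.F4.MH H 0 t ^ β := by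
  unfold maxMoment
  congr 1
  exact intervalIntegral.integral_congr fun t _ => by simp only [localMax_eq]

lemma maxMoment_AM (β θ T : ℝ) : maxMoment β (Real.log T ^ θ) T = Pool.Agent.H469.F4.AM β θ T := by
  rw [maxMoment_eq, one_div]
  rfl

lemma proportion_PM (v θ T : ℝ) : proportion (Real.log T ^ v) (Real.log T ^ θ) T = Pool.Agent.H469.F4.PM v θ T := by
  unfold proportion Pool.Agent.H469.F4.PM
  simp only [localMax_eq, one_div]

theorem result :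
    (∀ β ε : ℝ, 0 < β → β ≤ 4 → 0 < ε → ∃ c C : ℝ, 0 < c ∧ 0 < C ∧ ∀ᶠ T : ℝ in atTop,
      (2 < β → ∀ H : ℝ, 0 ≤ H → H ≤ Real.log T ^ (β ^ 2 / 4 - 1 - ε) →
        c * ((1 + H * Real.log T) * Real.log T ^ (β ^ 2 / 4)) ≤ maxMoment β H T) ∧
      (∀ H : ℝ, 0 ≤ H → H ≤ T / 16 → maxMoment β H T ≤ C * ((1 + H * Real.log T) * Real.log T ^ (β ^ 2 / 4))) ∧
      (β ≤ 2 → ∀ H : ℝ, 1 ≤ H * Real.log T → H ≤ 1 →
        maxMoment β H T ≤ C * ((H * Real.log T) ^ β * H ^ (-(β ^ 2 / 4))))) ∧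
    (∀ β θ : ℝ, 0 < β → β ≤ 4 → -1 ≤ θ → θ < 3 →
      Tendsto (fun T : ℝ => Real.log (maxMoment β (Real.log T ^ θ) T) / Real.log (Real.log T)) atTop (𝓝 (exponent β θ))) ∧
    (∀ v θ : ℝ, v < 2 → -1 ≤ θ → θ < 3 →
      Tendsto (fun T : ℝ => Real.log (proportion (Real.log T ^ v) (Real.log T ^ θ) T) / Real.log (Real.log T)) atTop
        (𝓝 (-rate v θ))) := by
  refine ⟨?_, ?_, ?_⟩
  · intro β ε hβ0 hβ4 hε
    simp only [maxMoment_eq]
    obtain ⟨C₁, hC₁, h1⟩ := Pool.Agent.H469.F4.long_upper hβ0 hβ4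
    obtain ⟨C₂, hC₂, h2⟩ : ∃ C₂ : ℝ, 0 < C₂ ∧ ∀ᶠ T : ℝ in atTop, β ≤ 2 → ∀ H : ℝ, 1 ≤ H * Real.log T → H ≤ 1 →
        ∫ t in T..(2 * T), Pool.Agent.H469.F4.MH H 0 t ^ β ≤ C₂ * T * ((H * Real.log T) ^ β * H ^ (-(β ^ 2 / 4))) := by
      by_cases hβ2 : β ≤ 2
      · obtain ⟨C₂, hC₂, h2⟩ := Pool.Agent.H469.F4.meso_max_up hβ0 hβ2
        refine ⟨C₂, hC₂, ?_⟩
        filter_upwards [h2, eventually_gt_atTop (0 : ℝ)] with T h2 hT _ H hH1 hH2
        exact h2 0 (by rw [abs_zero]; positivity) H hH1 hH2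
      · exact ⟨1, one_pos, Filter.Eventually.of_forall fun T h => absurd h hβ2⟩
    obtain ⟨c, hc, h3⟩ : ∃ c : ℝ, 0 < c ∧ ∀ᶠ T : ℝ in atTop, 2 < β → ∀ H : ℝ, 0 ≤ H → H ≤ Real.log T ^ (β ^ 2 / 4 - 1 - ε) →
        c * T * ((1 + H * Real.log T) * Real.log T ^ (β ^ 2 / 4)) ≤ ∫ t in T..(2 * T), Pool.Agent.H469.F4.MH H 0 t ^ β := by
      by_cases hβ2 : 2 < β
      · obtain ⟨c, hc, h3⟩ := Pool.Agent.H469.F4.long_lower hβ2 hβ4 hε
        refine ⟨c, hc, ?_⟩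
        filter_upwards [h3, eventually_gt_atTop (0 : ℝ)] with T h3 hT _ H hH1 hH2
        exact h3 0 (by rw [abs_zero]; positivity) H hH1 hH2
      · exact ⟨1, one_pos, Filter.Eventually.of_forall fun T h => absurd h hβ2⟩
    refine ⟨c, max C₁ C₂, hc, lt_max_of_lt_left hC₁, ?_⟩
    filter_upwards [h1, h2, h3, eventually_gt_atTop (0 : ℝ), Real.tendsto_log_atTop.eventually_ge_atTop 1] with T h1 h2 h3 hT hL1
    have hL0 : 0 < Real.log T := by linarith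
    refine ⟨?_, ?_, ?_⟩
    · intro hβ2 H hH0 hH1
      rw [one_div, le_inv_mul_iff₀ hT]
      calc _ = c * T * ((1 + H * Real.log T) * Real.log T ^ (β ^ 2 / 4)) := by ring
        _ ≤ _ := h3 hβ2 H hH0 hH1
    · intro H hH0 hH1
      rw [one_div, inv_mul_le_iff₀ hT]
      calc _ ≤ _ := h1 0 (by rw [abs_zero]; positivity) H hH0 hH1
        _ = T * (C₁ * ((1 + H * Real.log T) * Real.log T ^ (β ^ 2 / 4))) := by ring
        _ ≤ T * (max C₁ C₂ * ((1 + H * Real.log T) * Real.log T ^ (β ^ 2 / 4))) := by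
            apply mul_le_mul_of_nonneg_left _ hT.le
            exact mul_le_mul_of_nonneg_right (le_max_left _ _) (by positivity)
    · intro hβ2 H hH1 hH2
      have hH0 : 0 < H := by
        by_contra h
        have : H * Real.log T ≤ 0 := mul_nonpos_of_nonpos_of_nonneg (not_lt.1 h) hL0.le
        linarith
      rw [one_div, inv_mul_le_iff₀ hT]
      calc _ ≤ _ := h2 hβ2 H hH1 hH2
        _ = T * (C₂ * ((H * Real.log T) ^ β * H ^ (-(β ^ 2 / 4)))) := by ring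
        _ ≤ T * (max C₁ C₂ * ((H * Real.log T) ^ β * H ^ (-(β ^ 2 / 4)))) := by
            apply mul_le_mul_of_nonneg_left _ hT.le
            exact mul_le_mul_of_nonneg_right (le_max_right _ _) (by positivity)
  · intro β θ hβ0 hβ4 hθ1 hθ3
    simp only [maxMoment_AM]
    exact Pool.Agent.H469.F4.expo_all hβ0 hβ4 hθ1 hθ3
  · intro v θ hv hθ1 hθ3
    simp only [proportion_PM]
    exact Pool.Agent.H469.F4.ld_all hv hθ1 hθ3

end Pool.Agent.Results.MP_91b7ff_nt.MaximaPhaseDiagram
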