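import Pool.Agent.H470.Ya12

set_option autoImplicit false

/-!
# The moments of all real orders of the short partial sums of zeta, of zeta minus its long partial sums, and the
asymptotic equality of the moments of zeta and of its long partial sums

For every real `β > 0` there is a constant `c > 0` such that (1) the mean value over `[0, T]` of the `β`-th power of
the modulus of the partial sum of length `N` of zeta on the critical line is `(c + o(1)) (log N)^(β²/4)`, uniformly
for `N → ∞` and `log T / log N → ∞`; (2) the mean value over `[T, 2T]` of the `β`-th power of the modulus of zeta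
minus its partial sum of length `N` is `(c + o(1)) (log (T / N))^(β²/4)`, uniformly for `T → ∞`,
`N ≤ T / (log T)^4` and `log T / log (T / N) → ∞`, that is, for `T^(1 - o(1)) ≤ N ≤ T / (log T)^4`; and (3) for
`T^(1 - o(1)) ≤ N ≤ T` the `β`-th moments over `[T, 2T]` of zeta and of its partial sum of length `N` are
asymptotically equal, the `β`-th moment of the difference being of smaller order.

Proof of (1). The statement is first proved on the infinite torus, where `n^(-it)` is replaced by a random completely
multiplicative function: smooth partial sums are averages of Euler products `F(1/2 + δ (1 + iy))`, `δ = 1 / log N`,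
over `y`, and converge after a change of measure to averages of the exponential of a Gaussian field. The passage to
`[0, T]` rests on pointwise majorants of `|F|^(2k)`, `k` real, by sums of squares of moduli of Dirichlet polynomials
of length `N^(O(1))`, built from truncated exponentials of the sums over blocks of primes, so that mean values over
`[0, T]` are bounded by mean values over the torus; a tilted form of the continuity theorem of Lévy over `[0, T]`;
and for the sharp cut-off, a frequency projection for orders at least `2` and a dyadic decomposition of the cut-off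
with majorants adapted to the scale for orders below `2`.

Proof of (2). Zeta minus the partial sum of length `N` is, up to a bounded error, the factor of the functional
equation times the conjugate of a partial sum of length `t / (2 π (N + 1/2))`; the dependence of the length on `t` is
removed by a local frequency projection bounded on `L^p` for orders above `1` and by mean squares otherwise.

Proof of (3). By (2), by a frequency projection for `N` beyond `T / (log T)^4`, and by the lower bounds of the right
order for the moments of zeta.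
-/

open Complex MeasureTheory Set Filter Topology

namespace Pool.Agent.Results.MP_91b7ff_nt.ShortSumsAllOrders

open Pool.Agent.H470

theorem result (β : ℝ) (hβ : 0 < β) :
    ∃ c : ℝ, 0 < c ∧
      -- (1) short partial sums
      (∀ ε : ℝ, 0 < ε → ∃ A : ℕ, ∀ N : ℕ, A ≤ N → ∀ T : ℝ, (N : ℝ) ^ A ≤ T →
        |1 / T * (∫ t in (0 : ℝ)..T, ‖∑ n ∈ Finset.Icc 1 N, (n : ℂ) ^ (-(1 / 2 + I * (t : ℂ)))‖ ^ β) /
          Real.log N ^ (β ^ 2 / 4) - c| ≤ ε) ∧
      -- (2) zeta minus its long partial sums
      (∀ ε : ℝ, 0 < ε → ∃ A : ℕ, ∀ T : ℝ, (A : ℝ) ≤ T → ∀ N : ℕ, 1 ≤ N →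
        (N : ℝ) * Real.log T ^ 4 ≤ T → (T / N) ^ A ≤ T →
        |1 / T * (∫ t in T..(2 * T), ‖riemannZeta (1 / 2 + I * (t : ℂ)) -
            ∑ n ∈ Finset.Icc 1 N, (n : ℂ) ^ (-(1 / 2 + I * (t : ℂ)))‖ ^ β) /
          Real.log (T / N) ^ (β ^ 2 / 4) - c| ≤ ε) ∧
      -- (3) zeta and its partial sums of length `T^(1 - o(1))`
      (∀ ε : ℝ, 0 < ε → ∃ A : ℕ, ∀ T : ℝ, (A : ℝ) ≤ T → ∀ N : ℕ, 1 ≤ N → (N : ℝ) ≤ T → (T / N) ^ A ≤ T →
        (∫ t in T..(2 * T), ‖riemannZeta (1 / 2 + I * (t : ℂ)) -
            ∑ n ∈ Finset.Icc 1 N, (n : ℂ) ^ (-(1 / 2 + I * (t : ℂ)))‖ ^ β) ≤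
          ε * (∫ t in T..(2 * T), ‖riemannZeta (1 / 2 + I * (t : ℂ))‖ ^ β) ∧
        |(∫ t in T..(2 * T), ‖∑ n ∈ Finset.Icc 1 N, (n : ℂ) ^ (-(1 / 2 + I * (t : ℂ)))‖ ^ β) /
          (∫ t in T..(2 * T), ‖riemannZeta (1 / 2 + I * (t : ℂ))‖ ^ β) - 1| ≤ ε) := by
  obtain ⟨c, hc, hsum⟩ := sums_unif hβ
  exact ⟨c, hc, hsum, fun ε hε => long_asymp hβ hc hsum hε, fun ε hε => cmp_all hβ hε⟩

end Pool.Agent.Results.MP_91b7ff_nt.ShortSumsAllOrders
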