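import Pool.Agent.H493.SZ.Mom
import Pool.Agent.H493.SZ.Up
import Pool.Agent.H493.SZ.LowX
import Pool.Agent.H493.SZ.TILT
import Pool.Agent.H493.SZ.GRD
import Pool.Agent.H493.SZ.LPT
import Pool.Agent.H493.SZ.ONE
import Pool.Agent.H493.SZ.BLKC
import Pool.Agent.H493.SZ.WLL
import Pool.Agent.H493.SZ.CODE
import Pool.Agent.H493.SZ.UEXC
import Pool.Agent.H493.SZ.CUR

set_option autoImplicit false

/-!
# Moments of small order of zeta along deterministic sequences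

No hypothesis is made on the zeros of zeta.  Selberg's central limit theorem says that `log |ζ(1/2 + it)| / W(T)`, with
`W(T) = √(½ log log T)` and `t` in `[T, 2T]`, is asymptotically a standard Gaussian variable; the moments of order
`β = b / W(T)` of zeta are `(log T) ^ (β² / 4) = exp(b² / 2)` up to a factor `1 + o(1)`.  Here `t` is not random: the means are
weighted by arbitrary functions `θ` of small complexity, observed at the points `t, t + s, t + 2s, ...`.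

`d_1(T), ..., d_k(T)` are shifts with `|d_j(T)| ≤ (log T) ^ (-δ)` and `S` is the matrix of the limits of
`-log(|d_i(T) - d_j(T)| + 1 / log T) / log log T`; `X(t)` is the vector of the `log |ζ(1/2 + i(t + d_j(T)))| / W(T)`, and `N` the
centred Gaussian vector with covariance matrix `S`.  All the statements are uniform in the step `s`: they hold for all `T ≥ K` and
all `s` with `(log T) ^ (-1/K) ≤ s ≤ exp((log T) ^ (1/K))`.

1. Exponential inequality.  Let `ψ` be `L`-Lipschitz.  For any finite set `P` of sequences of complex numbers of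
   modulus at most `1`, the measure of the `t` in `[T, 2T]` for which one of the sequences `p` in `P` correlates with
   the fluctuations at the `M` consecutive points, `|∑_{m<M} p_m (ψ(X(t + ms)) - E ψ(N))| ≥ εM`, is at most
   `5 |P| exp(-ε²M/(32π²L²k)) T`.
2. Entropy bound.  If `θ`, `|θ| ≤ 1`, follows at most `exp(κM)` patterns of length `M` (up to a small error), then
   `|∫_T^{2T} θ(t) (ψ(X(t)) - E ψ(N)) dt| ≤ (√(32π²kκ) L + ε) T`.
3. Zero entropy.  If `ψ` is measurable, almost everywhere continuous for the law of `N`, and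
   `|ψ(x)| ≤ C (1 + ‖x‖² + ∑ exp(b x_j))`, then `ψ(X(t)) - E ψ(N)` is orthogonal to everything of zero entropy
   (`ZeroEntropyLaw`): functions `θ` with few patterns; sequences `F(Q^n y)`, `Q` a map of zero topological entropy, with a new
   point `y` on every window of at least `K` steps on average; arithmetic progressions; slowly varying functions.
4. Moments of small order.  The same for the products `∏ |ζ(1/2 + i(t + d_j(T)))| ^ (b_j / W(T))`, `b_j ≥ 0`, and their mean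
   `exp(½ ∑ b_i b_j S_ij)`.
5. For `log |ζ(1/2 + it)| / W(T)` itself the exact relation between entropy and correlation is found.  Let `N` be a standard Gaussian
   variable, `gain l = E N tanh(l N)` and `rate l = l E N tanh(l N) - E log cosh(l N)`, `l > 0`; the numbers `rate l` fill the interval
   `(0, log 2)`.  If `θ`, `|θ| ≤ 1`, follows at most `exp(rate l * M)` patterns of length `M` (up to a small error, one large `M`),
   then `|∫_T^{2T} θ(t) log |ζ(1/2 + it)| / W(T) dt| ≤ (gain l + ε) T`; and for every `η > 0` there is such a `θ` which follows at most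
   `exp((rate l + η) M)` patterns of length `M` exactly, for all large `M`, and
   `|∫_T^{2T} θ(t) log |ζ(1/2 + it)| / W(T) dt| ≥ (gain l - ε) T`.  (Remark, not part of the statement: `gain l ~ √(2κ)` for small
   `κ = rate l`, and `gain l` tends to `E |N| = √(2/π)` as `κ` tends to `log 2`.)
-/

open Complex Filter Topology Set MeasureTheory ProbabilityTheory
open scoped NNReal

namespace Pool.Agent.Results.MP_91b7ff_nt.SmallMomentsEntropy

/-- `|ζ(1/2 + it)|` -/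
noncomputable def absZeta (t : ℝ) : ℝ := ‖riemannZeta (1 / 2 + t * I)‖

/-- `√(½ log log T)` -/
noncomputable def W (T : ℝ) : ℝ := Real.sqrt (Real.log (Real.log T) / 2)

/-- the shifts `d_j(T)` and the matrix `S` of the limits of `-log(|d_i(T) - d_j(T)| + 1 / log T) / log log T` -/
structure Shifts {k : ℕ} (d : Fin k → ℝ → ℝ) (S : Matrix (Fin k) (Fin k) ℝ) : Prop where
  small : ∃ δ : ℝ, 0 < δ ∧ ∀ j, ∀ᶠ T : ℝ in atTop, |d j T| ≤ Real.log T ^ (-δ)
  cov : ∀ i j, Tendsto (fun T : ℝ => -Real.log (|d i T - d j T| + 1 / Real.log T) / Real.log (Real.log T)) atTop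
    (𝓝 (S i j))

/-- the vector of the `log |ζ(1/2 + i(t + d_j(T)))| / √(½ log log T)` -/
noncomputable def field {k : ℕ} (d : Fin k → ℝ → ℝ) (T t : ℝ) : EuclideanSpace ℝ (Fin k) :=
  WithLp.toLp 2 fun j => Real.log (absZeta (t + d j T)) / W T

/-- the Gaussian law with covariance matrix `S` -/
noncomputable def gauss {k : ℕ} (S : Matrix (Fin k) (Fin k) ℝ) : Measure (EuclideanSpace ℝ (Fin k)) :=
  multivariateGaussian 0 S

/-- the fluctuation `ψ(X(t)) - E ψ(N)` -/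
noncomputable def fluct {k : ℕ} (d : Fin k → ℝ → ℝ) (S : Matrix (Fin k) (Fin k) ℝ)
    (ψ : EuclideanSpace ℝ (Fin k) → ℝ) (T t : ℝ) : ℝ :=
  ψ (field d T t) - ∫ x, ψ x ∂(gauss S)

/-- `∏ |ζ(1/2 + i(t + d_j(T)))| ^ (b_j / W(T)) - exp(½ ∑ b_i b_j S_ij)` -/
noncomputable def moment {k : ℕ} (d : Fin k → ℝ → ℝ) (S : Matrix (Fin k) (Fin k) ℝ) (b : Fin k → ℝ) (T t : ℝ) : ℝ :=
  ∏ j, absZeta (t + d j T) ^ (b j / W T) - Real.exp ((∑ i, ∑ j, b i * b j * S i j) / 2)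

/-- `E N tanh(l N)`, `N` standard Gaussian -/
noncomputable def gain (l : ℝ) : ℝ := ∫ x, x * Real.tanh (l * x) ∂(gaussianReal 0 1)

/-- `E log cosh(l N)` -/
noncomputable def logCosh (l : ℝ) : ℝ := ∫ x, Real.log (Real.cosh (l * x)) ∂(gaussianReal 0 1)

/-- `l E N tanh(l N) - E log cosh(l N)` -/
noncomputable def rate (l : ℝ) : ℝ := l * gain l - logCosh l

/-- the range of the step `s` -/
def InRange (K T s : ℝ) : Prop := Real.log T ^ (-(1 / K)) ≤ s ∧ s ≤ Real.exp (Real.log T ^ (1 / K))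

/-- `R T s` holds for all large `T` and all steps `s` with `(log T) ^ (-1/K) ≤ s ≤ exp((log T) ^ (1/K))` -/
def Steps (R : ℝ → ℝ → Prop) : Prop := ∃ K : ℝ, 1 ≤ K ∧ ∀ T : ℝ, K ≤ T → ∀ s : ℝ, InRange K T s → R T s

/-- outside a set of measure at most `δT`, the values `θ(t), θ(t + s), ..., θ(t + (M-1)s)` are at mean distance at
most `δ` from one of at most `exp(κM)` sequences -/
def Follows (T s : ℝ) (M : ℕ) (κ δ : ℝ) (θ : ℝ → ℂ) : Prop :=
  ∃ (P : Finset (ℕ → ℂ)) (E : Set ℝ), (P.card : ℝ) ≤ Real.exp (κ * M) ∧ (∀ p ∈ P, ∀ m, ‖p m‖ ≤ 1) ∧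
    volume E ≤ ENNReal.ofReal (δ * T) ∧ ∀ t ∈ Icc T (2 * T), t ∉ E →
      ∃ p ∈ P, ∑ m ∈ Finset.range M, ‖θ (t + m * s) - p m‖ ≤ δ * M

/-- zero topological entropy (Bowen): for every `ε > 0` and every `κ > 0`, the orbits of length `M` are within `ε` of
at most `exp(κM)` orbits if `M` is large -/
def ZeroEntropy {Y : Type} [MetricSpace Y] (Q : Y → Y) : Prop :=
  ∀ ε κ : ℝ, 0 < ε → 0 < κ → ∃ M₀ : ℕ, ∀ M : ℕ, M₀ ≤ M → ∃ A : Finset Y, (A.card : ℝ) ≤ Real.exp (κ * M) ∧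
    ∀ y : Y, ∃ b ∈ A, ∀ m < M, dist (Q^[m] y) (Q^[m] b) ≤ ε

/-- the function `t ↦ O T t` of mean zero on `[T, 2T]` is orthogonal to everything of zero entropy: (a) functions which
follow few patterns, (b) systems of zero entropy, with a new point on every window, (c) systems of zero entropy along
arithmetic progressions, in the mean over the offset, (d) slowly varying functions -/
def ZeroEntropyLaw (O : ℝ → ℝ → ℝ) : Prop :=
  (∀ ε : ℝ, 0 < ε → ∃ (κ δ : ℝ) (M₀ : ℕ), 0 < κ ∧ 0 < δ ∧ ∀ M : ℕ, M₀ ≤ M → Steps fun T s =>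
    ∀ θ : ℝ → ℂ, Measurable θ → (∀ t, ‖θ t‖ ≤ 1) → Follows T s M κ δ θ →
      ‖∫ t in T..(2 * T), θ t * (O T t : ℂ)‖ ≤ ε * T) ∧
  (∀ (Y : Type) [MetricSpace Y] [CompactSpace Y] (Q : Y → Y), ZeroEntropy Q → ∀ F : Y → ℂ, Continuous F →
    ∀ ε : ℝ, 0 < ε → ∃ K : ℝ, 1 ≤ K ∧ ∀ T : ℝ, K ≤ T → ∀ s : ℝ, InRange K T s →
    ∀ (n : ℕ) (a : ℕ → ℝ) (y : ℕ → Y), K * (n * s) ≤ T → T ≤ a 0 → a n ≤ 2 * T → (∀ i < n, a i ≤ a (i + 1)) →
      ∑ i ∈ Finset.range n, ‖∫ t in (a i)..(a (i + 1)), F (Q^[⌊t / s⌋₊] (y i)) * (O T t : ℂ)‖ ≤ ε * T) ∧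
  (∀ (Y : Type) [MetricSpace Y] [CompactSpace Y] (Q : Y → Y), ZeroEntropy Q → ∀ F : Y → ℂ, Continuous F →
    ∀ ε : ℝ, 0 < ε → Steps fun T s => ∀ y : Y,
      ∫ x in (0 : ℝ)..1, ‖∑ n ∈ Finset.Ico ⌈T / s⌉₊ ⌊2 * T / s⌋₊, F (Q^[n] y) * (O T ((n + x) * s) : ℂ)‖ ≤
        ε * (T / s)) ∧
  (∀ ε : ℝ, 0 < ε → ∃ K : ℝ, 1 ≤ K ∧ ∀ T : ℝ, K ≤ T → ∀ s : ℝ, InRange K T s →
    ∀ θ : ℝ → ℂ, Measurable θ → (∀ t, ‖θ t‖ ≤ 1) → ∫ t in T..(2 * T), ‖θ (t + s) - θ t‖ ≤ T / K →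
      ‖∫ t in T..(2 * T), θ t * (O T t : ℂ)‖ ≤ ε * T)

open Pool.Agent.H493.SZ in
/-- from the abstract theory -/
lemma law_of {k : ℕ} {d : Fin k → ℝ → ℝ} {S : Matrix (Fin k) (Fin k) ℝ} {ψ : EuclideanSpace ℝ (Fin k) → ℝ}
    (hZ : ZE Rg S (Xz d) ψ) (hI : IE Rg S (Xz d) ψ) : ZeroEntropyLaw (fluct d S ψ) := by
  have hRa := rng t_RNG
  refine ⟨fun ε hε => ?_, ?_, ?_, fun ε hε => ?_⟩
  · exact hZ ε hε
  · intro Y _ _ Q hQ F hF ε hε
    exact momoZ hRa hZ hI hQ hF hε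
  · intro Y _ _ Q hQ F hF ε hε
    exact offZ hRa hZ hI hQ hF hε
  · exact slowZ hRa hZ hε

open Pool.Agent.H493.SZ in
/-- functions which agree outside null sets -/
lemma law_congr {O O' : ℝ → ℝ → ℝ} (h : ∀ T r c : ℝ, r ≠ 0 → ∀ᵐ x : ℝ, O T (r * x + c) = O' T (r * x + c))
    (hO : ZeroEntropyLaw O) : ZeroEntropyLaw O' := by
  have h1 : ∀ T : ℝ, ∀ᵐ t : ℝ, O T t = O' T t := by
    intro T
    have := h T 1 0 one_ne_zero
    simpa only [one_mul, add_zero] using this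
  have h2 : ∀ (T a b : ℝ) (g : ℝ → ℂ), ∫ t in a..b, g t * (O' T t : ℂ) = ∫ t in a..b, g t * (O T t : ℂ) := by
    intro T a b g
    refine intervalIntegral.integral_congr_ae ?_
    filter_upwards [h1 T] with t ht _
    rw [ht]
  obtain ⟨ha, hb, hc, hd⟩ := hO
  refine ⟨?_, ?_, ?_, ?_⟩
  · simp only [h2]
    exact ha
  · simp only [h2]
    exact hb
  · intro Y _ _ Q hQ F hF ε hε
    obtain ⟨K, hK, h3⟩ := hc Y Q hQ F hF ε hε
    refine ⟨max K 3, hK.trans (le_max_left _ _), fun T hT s hs y => ?_⟩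
    have hs' := (rng t_RNG).mono K (max K 3) T s hK (le_max_left _ _) ((le_max_right _ _).trans hT) hs
    have hs0 : 0 < s := by
      refine lt_of_lt_of_le (Real.rpow_pos_of_pos (Real.log_pos ?_) _) hs'.1
      have : (3 : ℝ) ≤ T := (le_max_right _ _).trans hT
      linarith
    refine le_trans (le_of_eq ?_) (h3 T ((le_max_left _ _).trans hT) s hs' y)
    have h4 : ∀ᵐ x : ℝ, ∀ n : ℕ, O T ((n + x) * s) = O' T ((n + x) * s) := by
      refine ae_all_iff.2 fun n => ?_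
      filter_upwards [h T s (n * s) hs0.ne'] with x hx
      have e : ((n : ℝ) + x) * s = s * x + n * s := by ring
      rw [e]
      exact hx
    refine intervalIntegral.integral_congr_ae ?_
    filter_upwards [h4] with x hx _
    congr 1
    refine Finset.sum_congr rfl fun n _ => ?_
    rw [hx n]
  · simp only [h2]
    exact hd

open Pool.Agent.H493.SZ in
/-- **Moments of small order of zeta along deterministic sequences.** -/
theorem result {k : ℕ} (hk : 0 < k) (d : Fin k → ℝ → ℝ) (S : Matrix (Fin k) (Fin k) ℝ) (hS : Shifts d S) :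
    S.PosSemidef ∧
    -- 1. exponential inequality
    (∀ (ψ : EuclideanSpace ℝ (Fin k) → ℝ) (L : ℝ≥0), 0 < L → LipschitzWith L ψ →
      ∀ (M : ℕ) (ε : ℝ), 1 ≤ M → 0 < ε → Steps fun T s =>
      ∀ P : Finset (ℕ → ℂ), (∀ p ∈ P, ∀ m, ‖p m‖ ≤ 1) → volume {t | t ∈ Icc T (2 * T) ∧ ∃ p ∈ P,
        ε * M ≤ ‖∑ m ∈ Finset.range M, p m * (fluct d S ψ T (t + m * s) : ℂ)‖} ≤
      ENNReal.ofReal (5 * P.card * Real.exp (-(ε ^ 2 * M / (32 * Real.pi ^ 2 * L ^ 2 * k))) * T)) ∧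
    -- 2. entropy bound
    (∀ (ψ : EuclideanSpace ℝ (Fin k) → ℝ) (L : ℝ≥0), 0 < L → LipschitzWith L ψ →
      ∀ κ ε : ℝ, 0 ≤ κ → 0 < ε → ∃ (δ : ℝ) (M₀ : ℕ), 0 < δ ∧ ∀ M : ℕ, M₀ ≤ M → Steps fun T s =>
      ∀ θ : ℝ → ℂ, Measurable θ → (∀ t, ‖θ t‖ ≤ 1) → Follows T s M κ δ θ →
        ‖∫ t in T..(2 * T), θ t * (fluct d S ψ T t : ℂ)‖ ≤ (L * Real.sqrt (32 * Real.pi ^ 2 * k * κ) + ε) * T) ∧
    -- 3. zero entropy
    (∀ (ψ : EuclideanSpace ℝ (Fin k) → ℝ) (C b : ℝ), Measurable ψ → 0 < b →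
      (∀ x, |ψ x| ≤ C * (1 + ‖x‖ ^ 2 + ∑ j, Real.exp (b * x j))) → gauss S {x | ¬ ContinuousAt ψ x} = 0 →
      ZeroEntropyLaw (fluct d S ψ)) ∧
    -- 4. moments of small order
    (∀ b : Fin k → ℝ, (∀ j, 0 ≤ b j) → ZeroEntropyLaw (moment d S b)) ∧
    -- 5. the exact relation between entropy and correlation for `log |ζ|`
    (∀ κ : ℝ, 0 < κ → κ < Real.log 2 → ∃ l : ℝ, 0 < l ∧ rate l = κ) ∧
    (∀ l ε : ℝ, 0 < l → 0 < ε → ∃ (δ : ℝ) (M₀ : ℕ), 0 < δ ∧ ∀ M : ℕ, M₀ ≤ M → Steps fun T s =>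
      ∀ θ : ℝ → ℂ, Measurable θ → (∀ t, ‖θ t‖ ≤ 1) → Follows T s M (rate l) δ θ →
        ‖∫ t in T..(2 * T), θ t * ((Real.log (absZeta t) / W T : ℝ) : ℂ)‖ ≤ (gain l + ε) * T) ∧
    (∀ l η ε : ℝ, 0 < l → 0 < η → 0 < ε → ∃ M₀ : ℕ, Steps fun T s =>
      ∃ θ : ℝ → ℂ, Measurable θ ∧ (∀ t, ‖θ t‖ ≤ 1) ∧ (∀ M, M₀ ≤ M → Follows T s M (rate l + η) 0 θ) ∧
        (gain l - ε) * T ≤ ‖∫ t in T..(2 * T), θ t * ((Real.log (absZeta t) / W T : ℝ) : ℂ)‖) := by
  have hS' : Sh d S := ⟨hS.small, hS.cov⟩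
  have hG := Gsz p_GSE hk hS'
  have hX := Famz t_RNG p_MIZ p_GSE p_CHZ p_SEZ hk hS'
  have hRa := rng t_RNG
  refine ⟨hG.psd1, ?_, ?_, ?_, ?_, ?_, ?_, ?_⟩
  · intro ψ L hL hψ M ε hM hε
    exact expoR hG hRa hX hM hL hψ hε
  · intro ψ L hL hψ κ ε hκ hε
    exact entR hG hRa hX hL hψ hκ hε
  · intro ψ C b hψ hb hC hae
    have hA := apx_ae t_AEC p_EXB t_RNG p_MIZ p_GSE p_CHZ p_SEZ hk hS' hψ hb hC hae
    exact law_of (hA.ZE hG hRa hX) (hA.IE hRa hX)
  · intro b hb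
    have hB : 0 ≤ ∑ j, b j := Finset.sum_nonneg fun j _ => hb j
    have hA := apx_ae t_AEC p_EXB t_RNG p_MIZ p_GSE p_CHZ p_SEZ hk hS' (ψ := psb b) (psb_cont b).measurable
      (C := 1) (b := ∑ j, b j + 1) (by linarith) (psb_grw hb hk) (by
        have : {x | ¬ ContinuousAt (psb b) x} = ∅ := by
          ext x
          simp [(psb_cont b).continuousAt]
        rw [this]
        exact measure_empty)
    refine law_congr (fun T r c hr => ?_) (law_of (hA.ZE hG hRa hX) (hA.IE hRa hX))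
    filter_upwards [psb_ae b d 1 T hr c] with x hx
    unfold fluct moment
    have e1 : ∫ x, psb b x ∂(gauss S) = Real.exp ((∑ i, ∑ j, b i * b j * S i j) / 2) := gauss_mgf hG.psd1 b
    rw [e1]
    congr 1
  · exact t_CUR
  · intro l ε hl hε
    have hr : 0 ≤ rat l := by
      rw [CURL.rat_eq]
      exact integral_nonneg fun x => CURL.G_nonneg _
    have h1 := upZ t_UEXC t_ONE t_LPT t_RNG p_MIZ p_GSE p_CHZ p_SEZ hr hl hε
    have h2 : (rat l + Lam l) / l = gain l := by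
      unfold rat
      rw [sub_add_cancel, mul_comm, mul_div_assoc, div_self hl.ne', mul_one]
      rfl
    rw [h2] at h1
    exact h1
  · intro l η ε hl hη hε
    exact lowX t_BLKC (t_CODE t_TILT t_GRD t_LPT t_WLL) t_RNG p_MIZ p_GSE p_CHZ p_SEZ hl hη hε

end Pool.Agent.Results.MP_91b7ff_nt.SmallMomentsEntropy
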